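import Mathlib
import Pool.Agent.TH885.CO.Good

set_option autoImplicit false

/-!
# Segre's conjecture for all classes whose Cremona reduction is nearly uniform

A class `(d, w)` (degree and multiplicities) is reduced by quadratic transformations and by removing
the lines through two of the points which meet it negatively. If this leads to a class `(d1, w1)`
with multiplicity `m` at `n ≥ 37` points (or `n = 13, 21`), or `m` and `m + 1` at `n` points, `n`
large or `n = 4 N ≥ 144`, or at any number of at least ten points outside a window for `d1` of length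
less than `2`, and with multiplicities at most `1` at the other points, then a special system of
class `(d, w)` contains twice a `(-1)`-curve as a fixed part; and it is not special if only quadratic
transformations were used.
-/

namespace Pool.Agent.Results.MP_cfebfb_ag.CremonaReducible

open MvPolynomial Pool.Agent.TH167.SHDefs
open Pool.Agent.TH885.CO (LineStep excess good_exp segre_core)

theorem result : ∃ N0 : ℕ, ∀ (s d d1 m : ℕ) (w w1 : Fin s → ℕ) (S : Finset (Fin s)), 1 ≤ m →
    (∀ i, i ∉ S → w1 i ≤ 1) →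
    ((37 ≤ S.card ∨ S.card = 13 ∨ S.card = 21) ∧ (∀ i ∈ S, w1 i = m) ∨
      (N0 ≤ S.card ∨ 4 ∣ S.card ∧ 144 ≤ S.card) ∧ (∀ i ∈ S, w1 i = m ∨ w1 i = m + 1) ∨
      (10 ≤ S.card ∧ (∀ i ∈ S, w1 i = m) ∨ 15 ≤ S.card ∧ (∀ i ∈ S, w1 i = m ∨ w1 i = m + 1)) ∧
        (min (√(S.card : ℝ) - 3) (2 / 3 + 1 / (4 * √(S.card : ℝ))) <
            excess S.card d1 (∑ i ∈ S, w1 i) ∨
          excess S.card d1 (∑ i ∈ S, w1 i) <
            - min (√(S.card : ℝ) - 3) (2 / 3 + 9 / (4 * √(S.card : ℝ))))) →
    Relation.ReflTransGen (fun a b => Quadratic a b ∨ LineStep a b) (d, w) (d1, w1) →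
    ∃ F : MvPolynomial (Fin s × Fin 2) ℂ, F ≠ 0 ∧ ∀ P : Fin s → Fin 2 → ℂ,
      eval (fun ij : Fin s × Fin 2 => P ij.1 ij.2) F ≠ 0 →
        (Special P d w → ∃ (G : MvPolynomial (Fin 3) ℂ) (e : ℕ) (u : Fin s → ℕ),
          MinusOne P G e u ∧ inter d w e u ≤ -2 ∧ ∀ f ∈ sys P d w, G ^ 2 ∣ f) ∧
        (Relation.ReflTransGen Quadratic (d, w) (d1, w1) → ¬ Special P d w) := by
  obtain ⟨N0, hN0⟩ := good_exp
  refine ⟨N0, fun s d d1 m w w1 S hm hw hS h => ?_⟩
  obtain ⟨n, hn, h1, h2⟩ := hN0 s d1 m w1 S hm hS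
  exact segre_core hm S hn hw h1 h2 h

end Pool.Agent.Results.MP_cfebfb_ag.CremonaReducible
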