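import Pool.Agent.TH167.RD.ConvO

set_option autoImplicit false

/-!
# Segre's conjecture for systems of large superabundance

General points of the complex projective plane, and the system `L` of the curves of degree `d` with
multiplicities at least `m i` at these points, not empty. Let `S` be a set of at most nine indices.

* If `dim L > vdim L + ∑ (m i - 2)⁺`, the sum over the indices outside `S`, then there is an
  irreducible curve `C` with `C ^ 2 < 0` and `L C < C ^ 2` whose double is a fixed part of `L`,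
  and `C` is a `(-1)`-curve or at least ten of the `m i` are at least `8`.
* Let `L'` be the residual of `L` with respect to the `(-1)`-curves, of multiplicities `m' i`. If
  at most nine of the `m i` are at least `8` (and, more generally, unless there is a curve `C` as
  described below), then `vdim L' ≤ dim L ≤ vdim L' + ∑ (m' i - 2)⁺`, the sum over the indices
  outside `S`.
-/

namespace Pool.Agent.Results.MP_cfebfb_ag.LargeSuperabundance

open Pool.Agent.TH167 Pool.Agent.TH167.SHDefs

theorem result (r d : ℕ) (m : Fin (r + 4) → ℕ) :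
    ∃ Q : MvPolynomial (Fin (r + 4) × Fin 2) ℂ, Q ≠ 0 ∧
      ∀ P : Fin (r + 4) → Fin 2 → ℂ,
        MvPolynomial.eval (fun ij : Fin (r + 4) × Fin 2 => P ij.1 ij.2) Q ≠ 0 →
        0 ≤ dimL P d m →
        (∀ S : Finset (Fin (r + 4)), S.card ≤ 9 →
          virtdim d m + ((∑ i, (if i ∈ S then 0 else m i - 2) : ℕ) : ℤ) < dimL P d m →
          ∃ (G : MvPolynomial (Fin 3) ℂ) (e : ℕ) (u : Fin (r + 4) → ℕ),
            Curve P G e u ∧ inter e u e u < 0 ∧ inter d m e u < inter e u e u ∧
            (MinusOne P G e u ∨ 10 ≤ (Finset.univ.filter fun i => 8 ≤ m i).card) ∧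
            ∀ f ∈ sys P d m, G ^ 2 ∣ f) ∧
        ∃ (d' : ℕ) (m' : Fin (r + 4) → ℕ) (k : ℕ) (G : Fin k → MvPolynomial (Fin 3) ℂ)
          (e : Fin k → ℕ) (u : Fin k → Fin (r + 4) → ℕ) (N : Fin k → ℕ),
          Decomp P d m d' m' G e u N ∧ dimL P d' m' = dimL P d m ∧
          virtdim d' m' = virtdim d m + ∑ a, ((N a).choose 2 : ℤ) ∧
          (∀ (H : MvPolynomial (Fin 3) ℂ) (f : ℕ) (v : Fin (r + 4) → ℕ),
            MinusOne P H f v → 0 ≤ inter d' m' f v) ∧
          ((∀ S : Finset (Fin (r + 4)), S.card ≤ 9 → dimL P d m ≤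
              virtdim d' m' + ((∑ i, (if i ∈ S then 0 else m' i - 2) : ℕ) : ℤ)) ∨
            ∃ (H : MvPolynomial (Fin 3) ℂ) (c : ℕ) (v : Fin (r + 4) → ℕ), Curve P H c v ∧
              inter c v c v < 0 ∧ inter d' m' c v < inter c v c v ∧
              10 ≤ (Finset.univ.filter fun i => 4 ≤ v i).card ∧ (∀ i, 2 * v i ≤ m' i) ∧
              ∀ f ∈ sys P d m, H ^ 2 ∣ f) :=
  RD.final_open r d m

end Pool.Agent.Results.MP_cfebfb_ag.LargeSuperabundance
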