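import Mathlib
import Pool.Agent.TH545.SD.Dh

set_option autoImplicit false

/-!
# Linear systems of expected dimension are closed under subdivision of the base points

A system is a degree `d` with a multiset `v` of multiplicities at general points of the complex
projective plane. `Exact T d v` is generated by

* every non-special system (`known`), one point, and the following systems, which the team's theorems
  show to be non-special: below and above the window of the exact theorem for arbitrary
  multiplicities at `n ≥ 10` points (`low`, `high`), equal multiplicities at `n ≥ 37`, `13` or `21`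
  points (`uniform`), multiplicities `m, m + 1` at `T` or more points (`near`);
* `one`: a point of multiplicity `b` is replaced by four points of multiplicities
  `⌊(2b-1)/4⌋, ⌊2b/4⌋, ⌊(2b+1)/4⌋, ⌊(2b+2)/4⌋`;
* `four`: if `N` points of multiplicity `b` may be completed by `e`, and also `N` points of
  multiplicity `b + 1`, then so may `4 N` points of multiplicities `⌊b/2⌋`, `⌈b/2⌉`;
* `higher`, `lower`: independent conditions remain independent in higher degrees, empty systems remain
  empty in lower degrees.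

All these systems are non-special, for one threshold `T`.
-/

namespace Pool.Agent.Results.MP_cfebfb_ag.SubdivisionClosure

open MvPolynomial

/-- Forms of degree `d` vanishing to order at least `w i` at the points `(P i 0 : P i 1 : 1)`. -/
noncomputable def forms {n : ℕ} (P : Fin n → Fin 2 → ℂ) (d : ℕ) (w : Fin n → ℕ) :
    Submodule ℂ (MvPolynomial (Fin 3) ℂ) :=
  homogeneousSubmodule (Fin 3) ℂ d ⊓
    Submodule.restrictScalars ℂ
      (⨅ i : Fin n, (Ideal.span {X 0 - C (P i 0) * X 2, X 1 - C (P i 1) * X 2} :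
        Ideal (MvPolynomial (Fin 3) ℂ)) ^ (w i))

/-- The system of the forms of degree `d` with multiplicities `w` at the points `P` is not special:
its vector space dimension is `max (0, (d + 2) (d + 1) / 2 - ∑ (w i + 1) (w i) / 2)`. -/
def NonSpecial {n : ℕ} (P : Fin n → Fin 2 → ℂ) (d : ℕ) (w : Fin n → ℕ) : Prop :=
  (Module.finrank ℂ ↥(forms P d w) : ℤ) =
    max 0 (((d + 2).choose 2 : ℤ) - ∑ i, ((w i + 1).choose 2 : ℤ))

/-- The system of degree `d` with the multiplicities `w` at general points is not special: a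
nonempty Zariski open set of points, the complement of the zeros of `F`. -/
def GeneralNonSpecial {n : ℕ} (d : ℕ) (w : Fin n → ℕ) : Prop :=
  ∃ F : MvPolynomial (Fin n × Fin 2) ℂ, F ≠ 0 ∧ ∀ P : Fin n → Fin 2 → ℂ,
    eval (fun ij : Fin n × Fin 2 => P ij.1 ij.2) F ≠ 0 → NonSpecial P d w

/-- The multiset of the multiplicities. -/
def mults {n : ℕ} (w : Fin n → ℕ) : Multiset ℕ := Multiset.map w Finset.univ.val

/-- The number of conditions. -/
def conditions (v : Multiset ℕ) : ℕ := (v.map fun a => (a + 1).choose 2).sum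

/-- The four multiplicities `⌊b/2⌋`, `⌊b/2⌋`, `⌈b/2⌉`, `⌈b/2⌉`. -/
def halves (b : ℕ) : Multiset ℕ := {b / 2, b / 2, (b + 1) / 2, (b + 1) / 2}

/-- Four multiplicities, as equal as possible with the number of conditions of a point of
multiplicity `b ≥ 1`. -/
def quarters (b : ℕ) : Multiset ℕ := {(2 * b - 1) / 4, 2 * b / 4, (2 * b + 1) / 4, (2 * b + 2) / 4}

/-- The systems (degree `d`, multiplicities `v`) generated from the bases by subdivision. -/
inductive Exact (T : ℕ) : ℕ → Multiset ℕ → Prop
  | known {n d : ℕ} (w : Fin n → ℕ) (h : GeneralNonSpecial d w) : Exact T d (mults w)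
  | point (d b : ℕ) : Exact T d {b}
  | low {d : ℕ} {v : Multiset ℕ} (hn : 10 ≤ v.card) (h : √(v.card : ℝ) * d < (v.sum : ℝ)) :
      Exact T d v
  | high {d b : ℕ} {v : Multiset ℕ} (hn : 10 ≤ v.card) (hb : ∀ a ∈ v, a ≤ b + 1)
      (h : (v.card : ℝ) + (((v.map fun a => max a b).sum : ℕ) : ℝ) < √(v.card : ℝ) * (d + 3)) :
      Exact T d v
  | uniform {d n m : ℕ} (hm : 1 ≤ m) (hn : 37 ≤ n ∨ n = 13 ∨ n = 21) :
      Exact T d (Multiset.replicate n m)
  | near {d m : ℕ} {v : Multiset ℕ} (hT : T ≤ v.card) (hm : 1 ≤ m)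
      (hv : ∀ a ∈ v, a = m ∨ a = m + 1) : Exact T d v
  | one {d b : ℕ} {e : Multiset ℕ} (hb : 1 ≤ b) (h : Exact T d (b ::ₘ e)) :
      Exact T d (quarters b + e)
  | four {d N b : ℕ} {e : Multiset ℕ} (hN : 1 ≤ N) (hb : 1 ≤ b)
      (h : Exact T d (Multiset.replicate N b + e))
      (h' : Exact T d (Multiset.replicate N (b + 1) + e)) : Exact T d (N • halves b + e)
  | higher {d d' : ℕ} {v : Multiset ℕ} (hd : d' ≤ d) (hc : conditions v ≤ (d' + 2).choose 2)
      (h : Exact T d' v) : Exact T d v
  | lower {d d' : ℕ} {v : Multiset ℕ} (hd : d ≤ d') (hc : (d' + 2).choose 2 ≤ conditions v)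
      (h : Exact T d' v) : Exact T d v

open Pool.Agent.TH545.SD in
theorem gd : ∃ T : ℕ, ∀ (d : ℕ) (v : Multiset ℕ), Exact T d v → GD d v := by
  obtain ⟨T, hT⟩ := GD.near
  refine ⟨T, ?_⟩
  intro d v h
  induction h with
  | @known n d w h =>
    obtain ⟨F, hF, hF'⟩ := h
    have h1 : GD d (Pool.Agent.TH641.UM.ms w) := by
      refine GD_of_open (K := ℂ) ⟨F, hF, fun P hP => ?_⟩
      have h2 := hF' P hP
      unfold NonSpecial forms at h2
      unfold Pool.Agent.H932R3.ExpDim
      have e : ∑ i, ((w i + 1).choose 2 : ℤ) = ((∑ i, (w i + 1).choose 2 : ℕ) : ℤ) := by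
        push_cast
        rfl
      rw [e] at h2
      omega
    rw [mults, ms_map w]
    exact @h1
  | point d b => exact GD.point d b
  | low hn h => exact GD.low hn h
  | high hn hb h => exact GD.high hn hb h
  | uniform hm hn =>
    rw [← Multiset.nsmul_singleton]
    exact GD.uniform hm hn
  | near h1 h2 h3 => exact hT h1 h2 h3
  | one hb _ ih => exact GD.one hb ih
  | four hN hb _ _ ih ih' =>
    rw [← Multiset.nsmul_singleton] at ih ih'
    exact GD.four hN hb ih ih'
  | higher hd hc _ ih => exact GD.above hd hc ih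
  | lower hd hc _ ih => exact GD.below hd hc ih

theorem result : ∃ T : ℕ, ∀ (n : ℕ) (w : Fin n → ℕ) (d : ℕ), Exact T d (mults w) →
    GeneralNonSpecial d w := by
  obtain ⟨T, hT⟩ := gd
  refine ⟨T, fun n w d h => ?_⟩
  have h1 : Pool.Agent.TH545.SD.GD d (Pool.Agent.TH641.UM.ms w) := by
    rw [← Pool.Agent.TH545.SD.ms_map w]
    exact hT d (mults w) h
  obtain ⟨F, hF, hF'⟩ := h1.expDim
  refine ⟨F.map (algebraMap ℚ ℂ), Pool.Agent.H932R3.map_ne_zero_of hF, fun P hP => ?_⟩
  rw [MvPolynomial.eval_map] at hP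
  have h2 := hF' (L := ℂ) P hP
  unfold Pool.Agent.H932R3.ExpDim at h2
  unfold NonSpecial forms
  rw [h2]
  have e : ∑ i, ((w i + 1).choose 2 : ℤ) = ((∑ i, (w i + 1).choose 2 : ℕ) : ℤ) := by
    push_cast
    rfl
  rw [e]
  omega

end Pool.Agent.Results.MP_cfebfb_ag.SubdivisionClosure
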