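import Mathlib
import Pool.Agent.TH105.QH.All3

set_option autoImplicit false

/-!
# Segre's conjecture for two groups of points with multiplicities of arbitrary ratio

`2 N` points of multiplicity `⌊b / 2⌋`, `2 N` points of multiplicity `⌈b / 2⌉` (so `4 N` points of
multiplicity `b / 2` if `b` is even) and `k` points of multiplicities `x i ∈ {a, a + 1}` with sum `S`.
Let `D` be the critical degree, the largest one with `(D + 2).choose 2 ≤ ∑ (m i + 1).choose 2`.  If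
`4 (b + 1) ≤ D`, `D + 16 k ≤ 4 S` and one of
* `4 S + 2 k (N + k + S + 1) ≤ k D`,
* `4 S + 2 k (N + 5 k + S + 5) ≤ 5 k D`, and for `t = D` and for `t = D + 1` there is `K ≥ 2` with
  `(t + 3) mod 2 K ≤ K`, `2 K (b + 1) ≤ D` and `2 K (5 k + S + 4) ≤ k D`,

then for general points the linear system of curves of degree `d` is not special, for EVERY degree `d`.
-/

namespace Pool.Agent.Results.MP_cfebfb_ag.TwoBlocks

open MvPolynomial

/-- The multiplicities: `2 N` times `⌊b / 2⌋`, then `2 N` times `⌈b / 2⌉`, then `x`. -/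
def mult (N b : ℕ) {k : ℕ} (x : Fin k → ℕ) : Fin (2 * N + 2 * N + k) → ℕ :=
  Fin.append (Fin.append (fun _ : Fin (2 * N) => b / 2) (fun _ : Fin (2 * N) => (b + 1) / 2)) x

/-- `c` is the number of conditions `∑ (m i + 1).choose 2`. -/
def conditions {h : ℕ} (m : Fin h → ℕ) : ℕ := ∑ i, (m i + 1).choose 2

theorem result (N b k : ℕ) (hN : 1 ≤ N) (a : ℕ) (x : Fin k → ℕ)
    (hx : ∀ i, x i = a ∨ x i = a + 1) (D : ℕ)
    (hD : (D + 2).choose 2 ≤ conditions (mult N b x))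
    (hD' : conditions (mult N b x) < (D + 3).choose 2)
    (h1 : 4 * (b + 1) ≤ D) (h2 : D + 16 * k ≤ 4 * ∑ i, x i)
    (h3 : 4 * ∑ i, x i + 2 * k * (N + k + ∑ i, x i + 1) ≤ k * D ∨
      (4 * ∑ i, x i + 2 * k * (N + 5 * k + ∑ i, x i + 5) ≤ 5 * (k * D) ∧
        ∀ t, t = D ∨ t = D + 1 → ∃ K : ℕ, 2 ≤ K ∧ (t + 3) % (2 * K) ≤ K ∧ 2 * K * (b + 1) ≤ D ∧
          2 * K * (5 * k + ∑ i, x i + 4) ≤ k * D)) :
    ∃ Q : MvPolynomial (Fin (2 * N + 2 * N + k) × Fin 3) ℂ, Q ≠ 0 ∧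
      ∀ p : Fin (2 * N + 2 * N + k) → Fin 3 → ℂ,
        MvPolynomial.eval (fun ij : Fin (2 * N + 2 * N + k) × Fin 3 => p ij.1 ij.2) Q ≠ 0 →
        ∀ d : ℕ, ∀ F : Fin ((d + 2).choose 2 - conditions (mult N b x) + 1) →
            MvPolynomial (Fin 3) ℂ,
          (∀ j, F j ∈ MvPolynomial.homogeneousSubmodule (Fin 3) ℂ d ∧
            ∀ i, ∀ n : Fin 3 →₀ ℕ, ∑ l, n l < mult N b x i →
              MvPolynomial.coeff n
                (MvPolynomial.aeval (R := ℂ)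
                  (fun l : Fin 3 => (X l + C (p i l) : MvPolynomial (Fin 3) ℂ)) (F j)) = 0) →
          ¬ LinearIndependent ℂ F := by
  obtain ⟨F, hF, hF'⟩ := Pool.Agent.TH105.QH.expDim_two_blocks (x := x) hN ⟨a, hx⟩ hD hD' h1 h2 h3
  obtain ⟨Q, hQ, hQ'⟩ := H932R3.not_special_of (L := ℂ) (D := fun _ => True)
    ⟨F, hF, fun P hP d _ => hF' P hP d⟩
  exact ⟨Q, hQ, fun p hp d G hG => hQ' p hp d trivial G hG⟩

end Pool.Agent.Results.MP_cfebfb_ag.TwoBlocks
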